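import Mathlib
import Pool.Agent.H759R2.Kad.Props

/-!
Task 03 of helper759 (Kadison): little Grothendieck inequality for self-adjoint families (helper880).
-/

open scoped ComplexOrder InnerProductSpace ComplexConjugate
open Finset

noncomputable section

namespace H759R2.Kad

universe u v

section Cauchy

variable {B : Type u} [CStarAlgebra B] [PartialOrder B] [StarOrderedRing B]

/-- Lagrange identity form of Cauchy-Schwarz. -/
theorem h880_lagrange {κ : Type} [Fintype κ] (c : κ → ℂ) (y : κ → B) :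
    star (∑ j, c j • y j) * (∑ j, c j • y j) ≤
      ((∑ j, ‖c j‖ ^ 2 : ℝ)) • ∑ j, star (y j) * y j := by
  have key : (2 : ℝ) • (((∑ j, ‖c j‖ ^ 2 : ℝ)) • ∑ j, star (y j) * y j -
      star (∑ j, c j • y j) * (∑ j, c j • y j)) =
      ∑ i, ∑ j, star (conj (c i) • y j - conj (c j) • y i) *
        (conj (c i) • y j - conj (c j) • y i) := by
    have e1 : ∀ i j, star (conj (c i) • y j - conj (c j) • y i) *
        (conj (c i) • y j - conj (c j) • y i) =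
        (‖c i‖ ^ 2 : ℝ) • (star (y j) * y j) + (‖c j‖ ^ 2 : ℝ) • (star (y i) * y i)
          - (c i * conj (c j)) • (star (y j) * y i) - (c j * conj (c i)) • (star (y i) * y j) := by
      intro i j
      have h1 : ∀ (z : ℂ) (w : B), (‖z‖ ^ 2 : ℝ) • w = (z * conj z) • w := by
        intro z w
        rw [Complex.mul_conj, Complex.normSq_eq_norm_sq]
        exact (Complex.coe_smul (‖z‖ ^ 2) w).symm
      rw [h1, h1]
      simp only [star_sub, star_smul, Complex.star_def, Complex.conj_conj, sub_mul, mul_sub,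
        smul_mul_smul_comm]
      abel
    simp only [e1, Finset.sum_add_distrib, Finset.sum_sub_distrib]
    have e2 : ∑ i, ∑ j, (‖c i‖ ^ 2 : ℝ) • (star (y j) * y j) =
        (∑ j, ‖c j‖ ^ 2 : ℝ) • ∑ j, star (y j) * y j := by
      rw [Finset.sum_smul]
      refine Finset.sum_congr rfl fun i _ => ?_
      rw [Finset.smul_sum]
    have e3 : ∑ i, ∑ j, (‖c j‖ ^ 2 : ℝ) • (star (y i) * y i) =
        (∑ j, ‖c j‖ ^ 2 : ℝ) • ∑ j, star (y j) * y j := by
      rw [Finset.sum_comm, e2]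
    have e4 : star (∑ j, c j • y j) * (∑ j, c j • y j) =
        ∑ i, ∑ j, (c j * conj (c i)) • (star (y i) * y j) := by
      rw [star_sum, Finset.sum_mul]
      refine Finset.sum_congr rfl fun i _ => ?_
      rw [Finset.mul_sum]
      refine Finset.sum_congr rfl fun j _ => ?_
      rw [star_smul, smul_mul_smul_comm, Complex.star_def, mul_comm]
    have e5 : ∑ i, ∑ j, (c i * conj (c j)) • (star (y j) * y i) =
        ∑ i, ∑ j, (c j * conj (c i)) • (star (y i) * y j) := by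
      rw [Finset.sum_comm]
    rw [e2, e3, e4, e5, two_smul]
    abel
  have hpos : 0 ≤ (2 : ℝ) • (((∑ j, ‖c j‖ ^ 2 : ℝ)) • ∑ j, star (y j) * y j -
      star (∑ j, c j • y j) * (∑ j, c j • y j)) := by
    rw [key]
    exact Finset.sum_nonneg fun i _ => Finset.sum_nonneg fun j _ => star_mul_self_nonneg _
  have h2 : 0 ≤ (2 : ℝ)⁻¹ • ((2 : ℝ) • (((∑ j, ‖c j‖ ^ 2 : ℝ)) • ∑ j, star (y j) * y j -
      star (∑ j, c j • y j) * (∑ j, c j • y j))) := smul_nonneg (by norm_num) hpos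
  rw [smul_smul, inv_mul_cancel₀ (by norm_num), one_smul] at h2
  exact sub_nonneg.1 h2

/-- norm form -/
theorem h880_norm_comb {κ : Type} [Fintype κ] (c : κ → ℂ) (y : κ → B)
    (hy : ∀ k, IsSelfAdjoint (y k)) :
    ‖∑ j, c j • y j‖ ^ 2 ≤ (∑ j, ‖c j‖ ^ 2) * ‖∑ j, y j ^ 2‖ := by
  have h := h880_lagrange c y
  have e : ∀ j, star (y j) * y j = y j ^ 2 := fun j => by rw [(hy j).star_eq, sq]
  simp only [e] at h
  have h2 := CStarAlgebra.norm_le_norm_of_nonneg_of_le (star_mul_self_nonneg _) h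
  rw [CStarRing.norm_star_mul_self, norm_smul, Real.norm_of_nonneg (by positivity)] at h2
  rw [sq]
  exact h2

/-- functionals -/
theorem h880_functional (f : B →ₗ[ℂ] ℂ) (M : ℝ) (hM : 0 ≤ M) (hf : ∀ b, ‖f b‖ ≤ M * ‖b‖)
    {κ : Type} [Fintype κ] (y : κ → B) (hy : ∀ k, IsSelfAdjoint (y k)) :
    ∑ k, ‖f (y k)‖ ^ 2 ≤ M ^ 2 * ‖∑ k, y k ^ 2‖ := by
  set S := ∑ k, ‖f (y k)‖ ^ 2 with hS
  have hS0 : 0 ≤ S := by positivity
  rcases hS0.eq_or_lt with h0 | h0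
  · rw [← h0]; positivity
  have h1 : f (∑ k, conj (f (y k)) • y k) = (S : ℂ) := by
    rw [map_sum, hS, Complex.ofReal_sum]
    refine Finset.sum_congr rfl fun k _ => ?_
    rw [map_smul, smul_eq_mul, mul_comm, Complex.mul_conj, Complex.normSq_eq_norm_sq]
  have h2 := hf (∑ k, conj (f (y k)) • y k)
  rw [h1, Complex.norm_real, Real.norm_of_nonneg hS0] at h2
  have h3 := h880_norm_comb (fun k => conj (f (y k))) y hy
  simp only [RCLike.norm_conj] at h3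
  rw [← hS] at h3
  have h4 : S ^ 2 ≤ M ^ 2 * (S * ‖∑ j, y j ^ 2‖) := by
    calc S ^ 2 ≤ (M * ‖∑ k, conj (f (y k)) • y k‖) ^ 2 := pow_le_pow_left₀ hS0 h2 2
      _ = M ^ 2 * ‖∑ k, conj (f (y k)) • y k‖ ^ 2 := by ring
      _ ≤ _ := mul_le_mul_of_nonneg_left h3 (by positivity)
  have h5 : S * S ≤ S * (M ^ 2 * ‖∑ j, y j ^ 2‖) := by nlinarith
  exact le_of_mul_le_mul_left h5 h0

/-- a priori bound for maps into finite dimensional spaces -/
theorem h880_apriori {F : Type v} [NormedAddCommGroup F] [InnerProductSpace ℂ F]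
    [FiniteDimensional ℂ F] (T : B →ₗ[ℂ] F) (M : ℝ) (hM : 0 ≤ M) (hT : ∀ b, ‖T b‖ ≤ M * ‖b‖)
    {κ : Type} [Fintype κ] (y : κ → B) (hy : ∀ k, IsSelfAdjoint (y k)) :
    ∑ k, ‖T (y k)‖ ^ 2 ≤ (Module.finrank ℂ F * M ^ 2) * ‖∑ k, y k ^ 2‖ := by
  set b := stdOrthonormalBasis ℂ F with hb
  have h1 : ∀ z : F, ‖z‖ ^ 2 = ∑ a, ‖⟪b a, z⟫_ℂ‖ ^ 2 := fun z => (b.sum_sq_norm_inner_right z).symm
  have h2 : ∀ a, ∑ k, ‖⟪b a, T (y k)⟫_ℂ‖ ^ 2 ≤ M ^ 2 * ‖∑ k, y k ^ 2‖ := by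
    intro a
    refine h880_functional ((innerₛₗ ℂ (b a)) ∘ₗ T) M hM (fun z => ?_) y hy
    have : ‖⟪b a, T z⟫_ℂ‖ ≤ ‖b a‖ * ‖T z‖ := norm_inner_le_norm _ _
    rw [b.norm_eq_one, one_mul] at this
    exact this.trans (hT z)
  calc ∑ k, ‖T (y k)‖ ^ 2 = ∑ a, ∑ k, ‖⟪b a, T (y k)⟫_ℂ‖ ^ 2 := by
        rw [Finset.sum_comm]
        exact Finset.sum_congr rfl fun k _ => h1 _
    _ ≤ ∑ _a : Fin (Module.finrank ℂ F), M ^ 2 * ‖∑ k, y k ^ 2‖ :=
        Finset.sum_le_sum fun a _ => h2 a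
    _ = _ := by
        rw [Finset.sum_const, Finset.card_univ, Fintype.card_fin, nsmul_eq_mul]
        ring

end Cauchy

/-- orthogonality of signs -/
theorem h880_signs {K : Type v} [NormedAddCommGroup K] [InnerProductSpace ℂ K] :
    ∀ (n : ℕ) (w : K) (u : Fin n → K),
      ∑ e : Fin n → ℤˣ, ‖w + ∑ k, (e k : ℤ) • u k‖ ^ 2 = 2 ^ n * (‖w‖ ^ 2 + ∑ k, ‖u k‖ ^ 2) := by
  intro n
  induction n with
  | zero =>
    intro w u
    simp
  | succ n ih =>
    intro w u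
    have e1 := (Fin.consEquiv (fun _ : Fin (n + 1) => ℤˣ)).sum_comp
      (fun e => ‖w + ∑ k, (e k : ℤ) • u k‖ ^ 2)
    rw [← e1, Fintype.sum_prod_type]
    have e2 : ∀ (s : ℤˣ), ∑ e : Fin n → ℤˣ, ‖w + ∑ k, ((Fin.consEquiv (fun _ : Fin (n + 1) => ℤˣ))
        (s, e) k : ℤ) • u k‖ ^ 2 = 2 ^ n * (‖w + (s : ℤ) • u 0‖ ^ 2 + ∑ k : Fin n, ‖u k.succ‖ ^ 2) := by
      intro s
      rw [← ih (w + (s : ℤ) • u 0) (fun k => u k.succ)]
      refine Finset.sum_congr rfl fun e _ => ?_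
      rw [Fin.sum_univ_succ]
      simp [Fin.consEquiv, add_assoc]
    rw [show (∑ x : ℤˣ, ∑ y : Fin n → ℤˣ, ‖w + ∑ k, ((Fin.consEquiv (fun _ : Fin (n + 1) => ℤˣ))
        (x, y) k : ℤ) • u k‖ ^ 2) = ∑ s : ℤˣ, 2 ^ n * (‖w + (s : ℤ) • u 0‖ ^ 2 +
          ∑ k : Fin n, ‖u k.succ‖ ^ 2) from Finset.sum_congr rfl fun s _ => e2 s]
    have hU : (Finset.univ : Finset ℤˣ) = {1, -1} := rfl
    rw [hU, Finset.sum_pair (by decide), Fin.sum_univ_succ]
    have hp := parallelogram_law_with_norm ℂ w (u 0)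
    have e3 : w + ((1 : ℤˣ) : ℤ) • u 0 = w + u 0 := by simp
    have e4 : w + ((-1 : ℤˣ) : ℤ) • u 0 = w - u 0 := by simp [sub_eq_add_neg]
    rw [e3, e4]
    linear_combination (2 ^ n : ℝ) * hp

/-- Minkowski in `ℓ²` -/
theorem h880_mink {K : Type v} [NormedAddCommGroup K] [InnerProductSpace ℂ K] {κ : Type}
    [Fintype κ] (a b : κ → K) :
    √(∑ k, ‖a k + b k‖ ^ 2) ≤ √(∑ k, ‖a k‖ ^ 2) + √(∑ k, ‖b k‖ ^ 2) := by
  have h := norm_add_le (WithLp.toLp 2 a : PiLp 2 (fun _ : κ => K)) (WithLp.toLp 2 b)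
  rw [PiLp.norm_eq_of_L2, PiLp.norm_eq_of_L2, PiLp.norm_eq_of_L2] at h
  simpa using h

section Main

variable {B : Type u} [CStarAlgebra B] [PartialOrder B] [StarOrderedRing B]
variable {K : Type v} [NormedAddCommGroup K] [InnerProductSpace ℂ K]

/-- admissible constants -/
def h880Valid (T : B →ₗ[ℂ] K) (C : ℝ) : Prop :=
  ∀ (κ : Type) [Fintype κ] (y : κ → B), (∀ k, IsSelfAdjoint (y k)) →
    ∑ k, ‖T (y k)‖ ^ 2 ≤ C * ‖∑ k, y k ^ 2‖

/-- the improvement step -/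
theorem h880_step (h1 : St_fourth.{u}) (h2 : St_trunc.{u}) (T : B →ₗ[ℂ] K) (M : ℝ) (hM : 0 ≤ M)
    (hT : ∀ b, ‖T b‖ ≤ M * ‖b‖) (a : ℝ) (ha : 0 ≤ a) (hC : h880Valid T (a ^ 2)) :
    h880Valid T ((M * (√3 / 2) + a / 2) ^ 2) := by
  classical
  intro κ _ y0 hy0
  -- reduce to `Fin n`
  set n := Fintype.card κ with hn
  set ε := Fintype.equivFin κ with hε
  set y : Fin n → B := fun k => y0 (ε.symm k) with hy
  have hsum1 : ∑ k, ‖T (y0 k)‖ ^ 2 = ∑ k, ‖T (y k)‖ ^ 2 :=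
    (ε.symm.sum_comp (fun k => ‖T (y0 k)‖ ^ 2)).symm
  have hsum2 : ∑ k, y0 k ^ 2 = ∑ k, y k ^ 2 := (ε.symm.sum_comp (fun k => y0 k ^ 2)).symm
  rw [hsum1, hsum2]
  have hsa : ∀ k, IsSelfAdjoint (y k) := fun k => hy0 _
  set V := ∑ k, y k ^ 2 with hV
  have hV0 : 0 ≤ V := Finset.sum_nonneg fun k _ => (hsa k).sq_nonneg
  rcases (norm_nonneg V).eq_or_lt with hv | hv
  · -- all zero
    have hV00 : V = 0 := norm_eq_zero.1 hv.symm
    have hz : ∀ k, y k = 0 := by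
      intro k
      have h3 : y k ^ 2 ≤ V := Finset.single_le_sum (f := fun k => y k ^ 2)
        (fun k _ => (hsa k).sq_nonneg) (Finset.mem_univ k)
      rw [hV00] at h3
      have h4 : y k ^ 2 = 0 := le_antisymm h3 (hsa k).sq_nonneg
      have h5 : ‖y k‖ * ‖y k‖ = 0 := by
        rw [← CStarRing.norm_star_mul_self, (hsa k).star_eq, ← sq, h4, norm_zero]
      exact norm_eq_zero.1 (mul_self_eq_zero.1 h5)
    rw [← hv]
    simp [hz]
  set v := ‖V‖ with hvdef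
  set t := √3 / 2 * √v with ht
  have htpos : 0 < t := by positivity
  have ht2 : t ^ 2 = 3 / 4 * v := by
    rw [ht, mul_pow, div_pow, Real.sq_sqrt (by norm_num), Real.sq_sqrt hv.le]
    norm_num
  set S : (Fin n → ℤˣ) → B := fun e => ∑ k, (e k : ℤ) • y k with hS
  have hSsa : ∀ e, IsSelfAdjoint (S e) := by
    intro e
    rw [hS]
    refine isSelfAdjoint_sum _ fun k _ => ?_
    rw [IsSelfAdjoint, star_zsmul, (hsa k).star_eq]
  have hex := fun e => h2 B (S e) t (hSsa e) htpos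
  choose f g hf hg hfg hfn hgn using hex
  -- the fourth moment
  have h4 := h1 B n y hsa
  rw [← hV, ← hvdef] at h4
  have hgsum : ∑ e, g e ^ 2 ≤ ((2 : ℝ) ^ n / 4) • V := by
    calc ∑ e, g e ^ 2 ≤ ∑ e, (1 / (16 * t ^ 2) : ℝ) • S e ^ 4 := Finset.sum_le_sum fun e _ => hgn e
      _ = (1 / (16 * t ^ 2) : ℝ) • ∑ e, S e ^ 4 := by rw [Finset.smul_sum]
      _ ≤ (1 / (16 * t ^ 2) : ℝ) • (((2 : ℝ) ^ n * (3 * v)) • V) :=
          smul_le_smul_of_nonneg_left h4 (by positivity)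
      _ = ((2 : ℝ) ^ n / 4) • V := by
          rw [smul_smul]
          congr 1
          rw [ht2]
          field_simp
          norm_num
  have hgnorm : ‖∑ e, g e ^ 2‖ ≤ (2 : ℝ) ^ n / 4 * v := by
    have h5 := CStarAlgebra.norm_le_norm_of_nonneg_of_le
      (Finset.sum_nonneg fun e _ => (hg e).sq_nonneg) hgsum
    rwa [norm_smul, Real.norm_of_nonneg (by positivity)] at h5
  have hTg : ∑ e, ‖T (g e)‖ ^ 2 ≤ a ^ 2 * ((2 : ℝ) ^ n / 4 * v) :=
    (hC _ g hg).trans (mul_le_mul_of_nonneg_left hgnorm (by positivity))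
  have hTf : ∑ e, ‖T (f e)‖ ^ 2 ≤ 2 ^ n * (M * t) ^ 2 := by
    calc ∑ e, ‖T (f e)‖ ^ 2 ≤ ∑ _e : Fin n → ℤˣ, (M * t) ^ 2 := by
          refine Finset.sum_le_sum fun e _ => ?_
          refine pow_le_pow_left₀ (norm_nonneg _) ?_ 2
          exact (hT _).trans (mul_le_mul_of_nonneg_left (hfn e) hM)
      _ = 2 ^ n * (M * t) ^ 2 := by
          rw [Finset.sum_const, Finset.card_univ, Fintype.card_fun, Fintype.card_fin,
            Fintype.card_units_int, nsmul_eq_mul]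
          norm_num
  have hTS : ∑ e, ‖T (f e) + T (g e)‖ ^ 2 = 2 ^ n * ∑ k, ‖T (y k)‖ ^ 2 := by
    have h6 := h880_signs n (0 : K) (fun k => T (y k))
    rw [norm_zero] at h6
    have h7 : ∀ e : Fin n → ℤˣ, T (f e) + T (g e) = 0 + ∑ k, (e k : ℤ) • T (y k) := by
      intro e
      rw [← map_add, ← hfg, hS, map_sum, zero_add]
      exact Finset.sum_congr rfl fun k _ => map_zsmul T _ _
    simp only [h7]
    rw [h6]
    ring
  have hmk := h880_mink (fun e => T (f e)) (fun e => T (g e))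
  rw [hTS] at hmk
  have h8 : √(2 ^ n * ∑ k, ‖T (y k)‖ ^ 2) ≤ √(2 ^ n) * (M * t) + √(2 ^ n) * (a / 2 * √v) := by
    refine hmk.trans (add_le_add ?_ ?_)
    · refine (Real.sqrt_le_sqrt hTf).trans (le_of_eq ?_)
      rw [Real.sqrt_mul (by positivity), Real.sqrt_sq (by positivity)]
    · refine (Real.sqrt_le_sqrt hTg).trans (le_of_eq ?_)
      have : a ^ 2 * ((2 : ℝ) ^ n / 4 * v) = 2 ^ n * ((a / 2) ^ 2 * v) := by ring
      rw [this, Real.sqrt_mul (by positivity), Real.sqrt_mul (by positivity),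
        Real.sqrt_sq (by positivity)]
  rw [Real.sqrt_mul (by positivity), ← mul_add] at h8
  have h9 : √(∑ k, ‖T (y k)‖ ^ 2) ≤ M * t + a / 2 * √v :=
    le_of_mul_le_mul_left h8 (by positivity)
  have h10 : ∑ k, ‖T (y k)‖ ^ 2 ≤ (M * t + a / 2 * √v) ^ 2 := by
    have := pow_le_pow_left₀ (Real.sqrt_nonneg _) h9 2
    rwa [Real.sq_sqrt (by positivity)] at this
  refine h10.trans (le_of_eq ?_)
  have : M * t + a / 2 * √v = (M * (√3 / 2) + a / 2) * √v := by rw [ht]; ring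
  rw [this, mul_pow, Real.sq_sqrt hv.le]

theorem h880_seq (h1 : St_fourth.{u}) (h2 : St_trunc.{u}) (T : B →ₗ[ℂ] K) (M : ℝ) (hM : 0 ≤ M)
    (hT : ∀ b, ‖T b‖ ≤ M * ‖b‖) (a : ℝ) (ha : 0 ≤ a) (hC : h880Valid T (a ^ 2)) (j : ℕ) :
    0 ≤ M * √3 + (a - M * √3) * (1 / 2) ^ j ∧
    h880Valid T ((M * √3 + (a - M * √3) * (1 / 2) ^ j) ^ 2) := by
  induction j with
  | zero =>
    have : M * √3 + (a - M * √3) * (1 / 2) ^ 0 = a := by ring
    rw [this]
    exact ⟨ha, hC⟩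
  | succ j ih =>
    have : M * √3 + (a - M * √3) * (1 / 2) ^ (j + 1) =
        M * (√3 / 2) + (M * √3 + (a - M * √3) * (1 / 2) ^ j) / 2 := by ring
    rw [this]
    exact ⟨by have := ih.1; positivity, h880_step h1 h2 T M hM hT _ ih.1 ih.2⟩

theorem h880_limit (h1 : St_fourth.{u}) (h2 : St_trunc.{u}) (T : B →ₗ[ℂ] K) (M : ℝ) (hM : 0 ≤ M)
    (hT : ∀ b, ‖T b‖ ≤ M * ‖b‖) (a : ℝ) (ha : 0 ≤ a) (hC : h880Valid T (a ^ 2)) :
    h880Valid T (3 * M ^ 2) := by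
  intro κ _ y hy
  have hlim : Filter.Tendsto
      (fun j : ℕ => (M * √3 + (a - M * √3) * (1 / 2 : ℝ) ^ j) ^ 2 * ‖∑ k, y k ^ 2‖)
      Filter.atTop (nhds ((M * √3 + (a - M * √3) * 0) ^ 2 * ‖∑ k, y k ^ 2‖)) := by
    have h0 : Filter.Tendsto (fun j : ℕ => (1 / 2 : ℝ) ^ j) Filter.atTop (nhds 0) :=
      tendsto_pow_atTop_nhds_zero_of_lt_one (by norm_num) (by norm_num)
    exact (((h0.const_mul _).const_add _).pow 2).mul_const _
  have h3 := ge_of_tendsto' hlim (b := ∑ k, ‖T (y k)‖ ^ 2)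
    (fun j => (h880_seq h1 h2 T M hM hT a ha hC j).2 κ y hy)
  refine h3.trans (le_of_eq ?_)
  rw [mul_zero, add_zero, mul_pow, Real.sq_sqrt (by norm_num)]
  ring

end Main

theorem prove_gtsa (h1 : St_fourth.{u}) (h2 : St_trunc.{u}) : St_gtsa.{u, v} := by
  classical
  intro B _ _ _ K _ _ _ T M hM hT n x hx
  -- finite dimensional range
  set F : Submodule ℂ K := Submodule.span ℂ (Set.range fun k => T (x k)) with hF
  have : FiniteDimensional ℂ F := FiniteDimensional.span_of_finite ℂ (Set.finite_range _)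
  set T' : B →ₗ[ℂ] F := (F.orthogonalProjectionOnto : K →L[ℂ] F).toLinearMap ∘ₗ T with hT'
  have hT'n : ∀ b, ‖T' b‖ ≤ M * ‖b‖ := by
    intro b
    refine le_trans ?_ (hT b)
    exact F.norm_orthogonalProjectionOnto_apply_le (T b)
  have hT'x : ∀ k, ‖T' (x k)‖ = ‖T (x k)‖ := by
    intro k
    have hmem : T (x k) ∈ F := Submodule.subset_span ⟨k, rfl⟩
    have : (T' (x k) : K) = T (x k) := F.starProjection_eq_self_iff.2 hmem
    rw [← this]
    rfl
  have hval : h880Valid T' ((√(Module.finrank ℂ F * M ^ 2)) ^ 2) := by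
    intro κ _ y hy
    rw [Real.sq_sqrt (by positivity)]
    exact h880_apriori T' M hM hT'n y hy
  have h := h880_limit h1 h2 T' M hM hT'n _ (Real.sqrt_nonneg _) hval (Fin n) x hx
  simp only [hT'x] at h
  exact h

end H759R2.Kad
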